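import Pool.Agent.Lib.MP_ba0fa5_ag.H1.Ggenus
import Pool.Agent.Lib.MP_ba0fa5_ag.H7.GAFF
import Pool.Agent.Lib.MP_ba0fa5_ag.H7.GJAC
import Pool.Agent.Lib.MP_ba0fa5_ag.H7.GSALL
import Pool.Agent.Lib.MP_ba0fa5_ag.H7.GSDBL
import Pool.Agent.Lib.MP_ba0fa5_ag.H7.GSODD
import Pool.Agent.Lib.MP_ba0fa5_ag.H16.GZERO
import Pool.Agent.Lib.MP_ba0fa5_ag.H17.Npair
import Pool.Agent.Lib.MP_ba0fa5_ag.H19.Ne
import Pool.Agent.Lib.MP_ba0fa5_ag.H29.Gcount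
import Pool.Agent.Lib.MP_ba0fa5_ag.H29.Gexist
import Pool.Agent.Lib.MP_ba0fa5_ag.H29.Gfin
import Pool.Agent.Lib.MP_ba0fa5_ag.H36.Nalg
import Pool.Agent.Lib.MP_ba0fa5_ag.H36.Ncountp
import Pool.Agent.Lib.MP_ba0fa5_ag.H48.GINF
import Pool.Agent.Lib.MP_ba0fa5_ag.H48.NGOOD
import Pool.Agent.Lib.MP_ba0fa5_ag.H48.NLOW
import Pool.Agent.Lib.MP_ba0fa5_ag.H48.NSIEVE
import Pool.Agent.Lib.MP_ba0fa5_ag.H51.Ntsum
import Pool.Agent.Lib.MP_ba0fa5_ag.H63.Gfinal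
import Pool.Agent.Lib.MP_ba0fa5_ag.H63.Gone
import Pool.Agent.Lib.MP_ba0fa5_ag.H65.GPts
import Pool.Agent.Lib.MP_ba0fa5_ag.H65.NFm
import Pool.Agent.Lib.MP_ba0fa5_ag.H65.NLink
import Pool.Agent.Lib.MP_ba0fa5_ag.H65.NSingle
import Pool.Agent.Lib.MP_ba0fa5_ag.H69.Gconst
import Pool.Agent.Lib.MP_ba0fa5_ag.H72.Gcrt
import Pool.Agent.Lib.MP_ba0fa5_ag.H72.Napsum
import Pool.Agent.Lib.MP_ba0fa5_ag.H72.Naptriv
import Pool.Agent.Lib.MP_ba0fa5_ag.H72.Ncnt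
import Pool.Agent.Lib.MP_ba0fa5_ag.H72.Ndiag
import Pool.Agent.Lib.MP_ba0fa5_ag.H72.Nf
import Pool.Agent.Lib.MP_ba0fa5_ag.H72.Nmert1
import Pool.Agent.Lib.MP_ba0fa5_ag.H72.Nrankin
import Pool.Agent.Lib.MP_ba0fa5_ag.H72.Nrec
import Pool.Agent.Lib.MP_ba0fa5_ag.H72.Nsm
import Pool.Agent.Lib.MP_ba0fa5_ag.H72.Nup
import Pool.Agent.Lib.MP_ba0fa5_ag.H75.Nfinal
import Pool.Agent.Lib.MP_ba0fa5_ag.H75.Nmm
import Pool.Agent.Lib.MP_ba0fa5_ag.H78.Phi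
import Pool.Agent.Lib.MP_ba0fa5_ag.H92.Nmertp

/-!
FINAL assembly.
-/

namespace Pool.Agent.Lib.MP_ba0fa5_ag.H1

open scoped Classical

theorem gfinal : GfinalStmt :=
  have hzero : GzeroStmt := H16.gzero gint
  H63.gfinal H72.gcrt H29.gcount H29.gexist H29.gfin H69.gconst ggenus
    (H65.gpts (H7.gaff gint) hzero (H63.gone hzero) (H48.Inf.ginf hzero))
    (H7.gjac (H7.gsall H7.gsodd H7.gsdbl))

theorem nfinal : NfinalStmt := by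
  have hrec : NrecStmt := H72.nrec H72.nmert1
  have hran : NrankinStmt := H72.nrankin H72.nmert1
  have hup : NupStmt := H72.nup hrec
  have hsing : NsingleStmt := H65.nsingle H48.nsieve hran hrec
  have hap : NapsumStmt := H72.napsum hsing
  have hlow : NlowStmt := H48.nlow hrec hup hran
  have hfm : NfmStmt := H65.nfm (H48.Good.ngood hup) H72.ncnt
  have hts : NtsumStmt := H51.ntsum hap H72.naptriv hup H36.nalg
  have hmm : NmmStmt := H75.nmm (H17.npair H48.nsieve hran hrec) H36.nalg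
    (H78.nphi hap H72.naptriv) hap hts
  have hsm : NsmStmt := H72.nsm (H72.ndiag hsing hup) (H19.ne H36.ncountp)
    (H72.nf H36.ncountp H36.nalg) hmm
  exact H75.nfinal hlow hfm hsm

/-- **FINAL** -/
theorem final : FinalStmt := by
  intro p hp
  obtain ⟨c, hc, X₀, h⟩ := nfinal (QQ p) (H92.nmertp p hp)
  refine ⟨c, hc, X₀, fun X hX => (h X hX).trans ?_⟩
  have hsub : (Finset.Icc 1 X).filter (RepQ (QQ p)) ⊆
      (Finset.Icc 1 X).filter (SupersingularGenus p) := by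
    intro g hg
    rw [Finset.mem_filter] at hg ⊢
    obtain ⟨m, d₁, d₂, d₃, hm, h12, h13, h23, hd, he⟩ := hg.2
    obtain ⟨hodd, i, hi, hdvd⟩ := H65.nlink p m hp hm
    exact ⟨hg.1, gfinal p i m d₁ d₂ d₃ g hp hi hodd hdvd h12 h13 h23 hd he⟩
  exact_mod_cast Finset.card_le_card hsub

end Pool.Agent.Lib.MP_ba0fa5_ag.H1
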