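import Pool.Agent.Lib.MP_ba0fa5_ag.H1.Mem

/-!
GGENUS: the genus of a Kummer extension.
-/

namespace Pool.Agent.Lib.MP_ba0fa5_ag.H1

open Polynomial

section RF

variable {k : Type} [Field k]

theorem single_pow (n : ℕ) :
    (HahnSeries.single (1 : ℤ) (1 : k)) ^ n = HahnSeries.single (n : ℤ) (1 : k) := by
  induction n with
  | zero => rfl
  | succ n ih =>
    rw [pow_succ, ih, HahnSeries.single_mul_single, mul_one]
    push_cast
    rfl

theorem alg_coeff (r : k) (x : HahnSeries ℤ k) (n : ℤ) :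
    (algebraMap k (HahnSeries ℤ k) r * x).coeff n = r * x.coeff n := by
  have h1 : algebraMap k (HahnSeries ℤ k) r = HahnSeries.C r := by
    rw [HahnSeries.algebraMap_apply']
    simp
  rw [h1]
  have h2 : HahnSeries.C r * x = r • x := HahnSeries.C_mul_eq_smul
  rw [h2]
  rfl

theorem phi_coeff (p : k[X]) (n : ℕ) :
    (aeval (HahnSeries.single (1 : ℤ) (1 : k)) p).coeff (n : ℤ) = p.coeff n := by
  induction p using Polynomial.induction_on' with
  | add p q hp hq => rw [map_add, HahnSeries.coeff_add, hp, hq, Polynomial.coeff_add]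
  | monomial i r =>
    rw [aeval_monomial, single_pow, alg_coeff, HahnSeries.coeff_single, coeff_monomial]
    by_cases h : i = n
    · subst h; simp
    · have h2 : ¬ ((n : ℤ) = i) := by
        intro h'
        exact h (by exact_mod_cast h'.symm)
      rw [if_neg h, if_neg h2, mul_zero]

theorem phi_inj : Function.Injective
    (aeval (HahnSeries.single (1 : ℤ) (1 : k)) : k[X] →ₐ[k] HahnSeries ℤ k) := by
  rw [injective_iff_map_eq_zero]
  intro p hp
  ext n
  rw [← phi_coeff, hp]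
  rfl

theorem exists_laurent : ∃ L : RatFunc k →ₐ[k] HahnSeries ℤ k,
    L RatFunc.X = HahnSeries.single (1 : ℤ) (1 : k) := by
  have hle : nonZeroDivisors k[X] ≤ Submonoid.comap
      (aeval (HahnSeries.single (1 : ℤ) (1 : k)) : k[X] →ₐ[k] HahnSeries ℤ k)
      (nonZeroDivisors (HahnSeries ℤ k)) :=
    nonZeroDivisors_le_comap_nonZeroDivisors_of_injective _ phi_inj
  refine ⟨RatFunc.liftAlgHom (aeval (HahnSeries.single (1 : ℤ) (1 : k))) hle, ?_⟩
  have h1 := RatFunc.liftAlgHom_apply_div (aeval (HahnSeries.single (1 : ℤ) (1 : k))) hle X 1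
  have h2 : algebraMap k[X] (RatFunc k) X / algebraMap k[X] (RatFunc k) 1 = RatFunc.X := by
    rw [map_one, div_one, RatFunc.algebraMap_X]
  rw [h2] at h1
  rw [h1, aeval_X, map_one (aeval (HahnSeries.single (1 : ℤ) (1 : k))), div_one]

/-- coefficient functionals -/
theorem exists_cf : ∃ cf : ℤ → RatFunc k →ₗ[k] k, ∀ n j : ℤ,
    cf n ((RatFunc.X : RatFunc k) ^ j) = if n = j then 1 else 0 := by
  obtain ⟨L, hL⟩ := exists_laurent (k := k)
  refine ⟨fun n => { toFun := fun z => (L z).coeff n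
                     map_add' := fun z w => by rw [map_add]; rfl
                     map_smul' := fun r z => by
                      rw [Algebra.smul_def, map_mul, AlgHom.commutes, alg_coeff]; rfl }, ?_⟩
  intro n j
  have h1 : L ((RatFunc.X : RatFunc k) ^ j) = HahnSeries.single j 1 := by
    rw [map_zpow₀, hL]
    rcases Int.eq_nat_or_neg j with ⟨i, rfl | rfl⟩
    · rw [zpow_natCast, single_pow]
    · rw [zpow_neg, zpow_natCast, single_pow, HahnSeries.inv_single, inv_one]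
  show (L ((RatFunc.X : RatFunc k) ^ j)).coeff n = _
  rw [h1, HahnSeries.coeff_single]
  split_ifs <;> rfl

/-- elements of `k[x]` are combinations of powers -/
theorem sum_X {z : RatFunc k} (hz : z ∈ Algebra.adjoin k {(RatFunc.X : RatFunc k)}) :
    ∃ (n : ℕ) (r : ℕ → k), z = ∑ i ∈ Finset.range n, r i • (RatFunc.X : RatFunc k) ^ i := by
  obtain ⟨p, rfl⟩ := (mem_adjoin_X z).1 hz
  exact ⟨p.natDegree + 1, p.coeff, by rw [← aeval_RX, aeval_eq_sum_range]⟩

theorem sum_inv {z : RatFunc k} (hz : z ∈ Algebra.adjoin k {(RatFunc.X⁻¹ : RatFunc k)}) :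
    ∃ (n : ℕ) (r : ℕ → k), z = ∑ i ∈ Finset.range n, r i • (RatFunc.X⁻¹ : RatFunc k) ^ i := by
  obtain ⟨τ, h1, h2⟩ := exists_inv_aut' (k := k)
  rw [mem_adjoin_inv h1 h2] at hz
  obtain ⟨n, r, h⟩ := sum_X hz
  refine ⟨n, r, ?_⟩
  rw [← h2 z, h, map_sum]
  refine Finset.sum_congr rfl fun i _ => ?_
  rw [map_smul, map_pow, h1]

theorem cf_X {cf : ℤ → RatFunc k →ₗ[k] k}
    (hcf : ∀ n j : ℤ, cf n ((RatFunc.X : RatFunc k) ^ j) = if n = j then 1 else 0)
    {z : RatFunc k} (hz : z ∈ Algebra.adjoin k {(RatFunc.X : RatFunc k)}) : cf (-1) z = 0 := by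
  obtain ⟨n, r, rfl⟩ := sum_X hz
  rw [map_sum]
  refine Finset.sum_eq_zero fun i _ => ?_
  rw [map_smul, ← zpow_natCast, hcf, if_neg (by omega), smul_zero]

theorem cf_inv {cf : ℤ → RatFunc k →ₗ[k] k}
    (hcf : ∀ n j : ℤ, cf n ((RatFunc.X : RatFunc k) ^ j) = if n = j then 1 else 0)
    {z : RatFunc k} (hz : RatFunc.X ^ 2 * z ∈ Algebra.adjoin k {(RatFunc.X⁻¹ : RatFunc k)}) :
    cf (-1) z = 0 := by
  obtain ⟨n, r, h⟩ := sum_inv hz
  have hX : (RatFunc.X : RatFunc k) ≠ 0 := RatFunc.X_ne_zero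
  have h1 : z = ∑ i ∈ Finset.range n, r i • (RatFunc.X : RatFunc k) ^ (-(i : ℤ) - 2) := by
    apply mul_left_cancel₀ (pow_ne_zero 2 hX)
    rw [h, Finset.mul_sum]
    refine Finset.sum_congr rfl fun i _ => ?_
    rw [mul_smul_comm]
    congr 1
    rw [zpow_sub₀ hX, zpow_neg, zpow_natCast, inv_pow]
    have : (RatFunc.X : RatFunc k) ^ (2 : ℤ) = RatFunc.X ^ 2 := rfl
    rw [this]
    field_simp
  rw [h1, map_sum]
  refine Finset.sum_eq_zero fun i _ => ?_
  rw [map_smul, hcf, if_neg (by omega), smul_zero]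

/-- splitting a Laurent polynomial -/
theorem split_XX {cf : ℤ → RatFunc k →ₗ[k] k}
    (hcf : ∀ n j : ℤ, cf n ((RatFunc.X : RatFunc k) ^ j) = if n = j then 1 else 0)
    {z : RatFunc k} (hz : z ∈ Algebra.adjoin k {(RatFunc.X : RatFunc k), RatFunc.X⁻¹}) :
    ∃ p q : RatFunc k, p ∈ Algebra.adjoin k {(RatFunc.X : RatFunc k)} ∧
      RatFunc.X ^ 2 * q ∈ Algebra.adjoin k {(RatFunc.X⁻¹ : RatFunc k)} ∧
      z = p + q + cf (-1) z • RatFunc.X⁻¹ := by
  have hX : (RatFunc.X : RatFunc k) ≠ 0 := RatFunc.X_ne_zero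
  have hXA : (RatFunc.X : RatFunc k) ∈ Algebra.adjoin k {(RatFunc.X : RatFunc k)} :=
    Algebra.subset_adjoin rfl
  have hXB : (RatFunc.X⁻¹ : RatFunc k) ∈ Algebra.adjoin k {(RatFunc.X⁻¹ : RatFunc k)} :=
    Algebra.subset_adjoin rfl
  obtain ⟨N, hN⟩ := (mem_XX z).1 hz
  obtain ⟨n, r, h⟩ := sum_X hN
  have h1 : z = ∑ i ∈ Finset.range n, r i • (RatFunc.X : RatFunc k) ^ ((i : ℤ) - N) := by
    apply mul_left_cancel₀ (pow_ne_zero N hX)
    rw [h, Finset.mul_sum]
    refine Finset.sum_congr rfl fun i _ => ?_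
    rw [mul_smul_comm]
    congr 1
    rw [zpow_sub₀ hX, zpow_natCast, zpow_natCast]
    field_simp
  -- the statement for a power of `X`
  have h2 : ∀ j : ℤ, ∃ p q : RatFunc k, p ∈ Algebra.adjoin k {(RatFunc.X : RatFunc k)} ∧
      RatFunc.X ^ 2 * q ∈ Algebra.adjoin k {(RatFunc.X⁻¹ : RatFunc k)} ∧
      RatFunc.X ^ j = p + q + cf (-1) (RatFunc.X ^ j) • RatFunc.X⁻¹ := by
    intro j
    rcases lt_trichotomy j (-1) with hj | hj | hj
    · refine ⟨0, RatFunc.X ^ j, zero_mem _, ?_, ?_⟩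
      · obtain ⟨l, hl⟩ : ∃ l : ℕ, j = -(l : ℤ) - 2 := ⟨(-j - 2).toNat, by omega⟩
        have : RatFunc.X ^ 2 * (RatFunc.X : RatFunc k) ^ j = (RatFunc.X⁻¹) ^ l := by
          rw [hl, zpow_sub₀ hX, zpow_neg, zpow_natCast, inv_pow]
          have : (RatFunc.X : RatFunc k) ^ (2 : ℤ) = RatFunc.X ^ 2 := rfl
          rw [this]
          field_simp
        rw [this]
        exact pow_mem hXB l
      · rw [hcf, if_neg (by omega), zero_smul, zero_add, add_zero]
    · refine ⟨0, 0, zero_mem _, by rw [mul_zero]; exact zero_mem _, ?_⟩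
      rw [hcf, if_pos hj.symm, hj, one_smul, zero_add, zero_add, zpow_neg_one]
    · refine ⟨RatFunc.X ^ j, 0, ?_, by rw [mul_zero]; exact zero_mem _, ?_⟩
      · obtain ⟨l, rfl⟩ : ∃ l : ℕ, j = l := ⟨j.toNat, by omega⟩
        rw [zpow_natCast]
        exact pow_mem hXA l
      · rw [hcf, if_neg (by omega), zero_smul, add_zero, add_zero]
  choose p q hp hq hpq using h2
  refine ⟨∑ i ∈ Finset.range n, r i • p ((i : ℤ) - N), ∑ i ∈ Finset.range n, r i • q ((i : ℤ) - N),
    Subalgebra.sum_mem _ fun i _ => Subalgebra.smul_mem _ (hp _) _, ?_, ?_⟩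
  · rw [Finset.mul_sum]
    refine Subalgebra.sum_mem _ fun i _ => ?_
    rw [mul_smul_comm]
    exact Subalgebra.smul_mem _ (hq _) _
  · rw [h1, map_sum, Finset.sum_smul, ← Finset.sum_add_distrib, ← Finset.sum_add_distrib]
    refine Finset.sum_congr rfl fun i _ => ?_
    conv_lhs => rw [hpq ((i : ℤ) - N)]
    rw [map_smul, smul_add, smul_add, smul_assoc]

/-- splitting off the part with a pole at `0` -/
theorem split_kap {cf : ℤ → RatFunc k →ₗ[k] k}
    (hcf : ∀ n j : ℤ, cf n ((RatFunc.X : RatFunc k) ^ j) = if n = j then 1 else 0)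
    {z : RatFunc k} (hz : z ∈ Algebra.adjoin k {(RatFunc.X : RatFunc k), RatFunc.X⁻¹}) (κ : ℕ)
    (h : (κ = 2 ∧ cf (-1) z = 0) ∨ κ ≤ 1) :
    ∃ p q : RatFunc k, p ∈ Algebra.adjoin k {(RatFunc.X : RatFunc k)} ∧
      RatFunc.X ^ κ * q ∈ Algebra.adjoin k {(RatFunc.X⁻¹ : RatFunc k)} ∧ z = p + q := by
  have hX : (RatFunc.X : RatFunc k) ≠ 0 := RatFunc.X_ne_zero
  have hXB : (RatFunc.X⁻¹ : RatFunc k) ∈ Algebra.adjoin k {(RatFunc.X⁻¹ : RatFunc k)} :=
    Algebra.subset_adjoin rfl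
  obtain ⟨p, q, hp, hq, hpq⟩ := split_XX hcf hz
  rcases h with ⟨rfl, h0⟩ | h
  · refine ⟨p, q, hp, hq, ?_⟩
    rw [h0, zero_smul, add_zero] at hpq
    exact hpq
  · refine ⟨p, q + cf (-1) z • RatFunc.X⁻¹, hp, ?_, by rw [← add_assoc]; exact hpq⟩
    have e1 : RatFunc.X ^ κ * q = (RatFunc.X⁻¹) ^ (2 - κ) * (RatFunc.X ^ 2 * q) := by
      have : (RatFunc.X : RatFunc k) ^ 2 = RatFunc.X ^ (2 - κ) * RatFunc.X ^ κ := by
        rw [← pow_add]; congr 1; omega
      rw [this, inv_pow]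
      field_simp
    have e2 : RatFunc.X ^ κ * (RatFunc.X⁻¹ : RatFunc k) = (RatFunc.X⁻¹) ^ (1 - κ) := by
      have : (RatFunc.X : RatFunc k) = RatFunc.X ^ (1 - κ) * RatFunc.X ^ κ := by
        rw [← pow_add, Nat.sub_add_cancel h, pow_one]
      rw [inv_pow]
      nth_rw 2 [this]
      field_simp
    rw [mul_add, mul_smul_comm, e1, e2]
    exact add_mem (mul_mem (pow_mem hXB _) hq) (Subalgebra.smul_mem _ (pow_mem hXB _) _)

end RF

open scoped Classical

section Kum

variable {k K : Type} [Field k] [Field K] [Algebra k K] {m a b : ℕ}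
  {ι : RatFunc k →ₐ[k] K} {y : K}

/-- the coordinate functions -/
theorem exists_coord (h : Kummer k K m a b ι y) :
    ∃ co : K →ₗ[k] (Fin m → RatFunc k), ∀ z : K, z = ∑ i, ι (co z i) * y ^ (i : ℕ) := by
  have h1 : ∀ z : K, ∃ c : Fin m → RatFunc k, z = ∑ i : Fin m, ι (c i) * y ^ (i : ℕ) := fun z =>
    (h.basis z).exists
  choose co hco using h1
  refine ⟨{ toFun := co, map_add' := fun z w => ?_, map_smul' := fun r z => ?_ }, hco⟩
  · apply kum_inj h
    rw [← hco (z + w)]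
    conv_lhs => rw [hco z, hco w]
    rw [← Finset.sum_add_distrib]
    refine Finset.sum_congr rfl fun i _ => ?_
    rw [Pi.add_apply, map_add, add_mul]
  · apply kum_inj h
    rw [← hco (r • z)]
    conv_lhs => rw [hco z]
    rw [Finset.smul_sum]
    refine Finset.sum_congr rfl fun i _ => ?_
    rw [Pi.smul_apply, RingHom.id_apply, map_smul, smul_mul_assoc]

/-- the components with a nonzero cohomology -/
abbrev JJ (m a b : ℕ) : Type := {i : Fin m // m < (i : ℕ) * a % m + (i : ℕ) * b % m}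

theorem card_JJ (m a b : ℕ) : Fintype.card (JJ m a b)
    = ((Finset.range m).filter (fun j => m < (j * a) % m + (j * b) % m)).card := by
  rw [Fintype.card_subtype]
  refine Finset.card_bij (fun (i : Fin m) _ => (i : ℕ)) ?_ ?_ ?_
  · intro i hi
    rw [Finset.mem_filter] at hi ⊢
    exact ⟨Finset.mem_range.2 i.2, hi.2⟩
  · intro i _ j _ hij
    exact Fin.ext hij
  · intro j hj
    rw [Finset.mem_filter] at hj
    exact ⟨⟨j, Finset.mem_range.1 hj.1⟩, Finset.mem_filter.2 ⟨Finset.mem_univ _, hj.2⟩, rfl⟩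

/-- **GGENUS** -/
theorem ggenus : GgenusStmt := by
  intro k K _ _ _ m a b ι y h hm hζ
  obtain ⟨cf, hcf⟩ := exists_cf (k := k)
  obtain ⟨co, hco⟩ := exists_coord h
  have hX : (RatFunc.X : RatFunc k) ≠ 0 := RatFunc.X_ne_zero
  set B01 := intCl k K {ι RatFunc.X, (ι RatFunc.X)⁻¹} with hB01
  set B0 := intCl k K {ι RatFunc.X} with hB0
  set B1 := intCl k K {(ι RatFunc.X)⁻¹} with hB1
  -- the map
  let Λ : K →ₗ[k] (JJ m a b → k) :=
    { toFun := fun z j => cf (-1) (ww k m a b (j.1 : ℕ) * co z j.1)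
      map_add' := fun z w => by
        funext j
        rw [map_add, Pi.add_apply, mul_add, map_add, Pi.add_apply]
      map_smul' := fun r z => by
        funext j
        rw [map_smul, Pi.smul_apply, mul_smul_comm, map_smul, RingHom.id_apply, Pi.smul_apply] }
  have hΛ : ∀ z j, Λ z j = cf (-1) (ww k m a b (j.1 : ℕ) * co z j.1) := fun _ _ => rfl
  let Λ' : B01 →ₗ[k] (JJ m a b → k) := Λ.comp B01.val.toLinearMap
  -- membership
  have m0 : ∀ z : K, z ∈ B0 ↔ ∀ i : Fin m, ww k m a b i * co z i ∈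
      Algebra.adjoin k {(RatFunc.X : RatFunc k)} := by
    intro z
    have := mem0 h hζ (co z)
    rwa [← hco z] at this
  have m1 : ∀ z : K, z ∈ B1 ↔ ∀ i : Fin m, RatFunc.X ^ kap m a b i * (ww k m a b i * co z i) ∈
      Algebra.adjoin k {(RatFunc.X⁻¹ : RatFunc k)} := by
    intro z
    have := mem1 h hζ (co z)
    rwa [← hco z] at this
  have m01 : ∀ z : K, z ∈ B01 ↔ ∀ i : Fin m, ww k m a b i * co z i ∈
      Algebra.adjoin k {(RatFunc.X : RatFunc k), RatFunc.X⁻¹} := by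
    intro z
    have := mem01 h hζ (co z)
    rwa [← hco z] at this
  have hco' : ∀ c : Fin m → RatFunc k, co (∑ i : Fin m, ι (c i) * y ^ (i : ℕ)) = c := by
    intro c
    exact kum_inj h _ _ (hco _).symm
  -- surjectivity
  have hsurj : Function.Surjective Λ' := by
    intro f
    let c : Fin m → RatFunc k := fun i =>
      if hi : m < (i : ℕ) * a % m + (i : ℕ) * b % m then
        (ww k m a b i)⁻¹ * (f ⟨i, hi⟩ • RatFunc.X⁻¹) else 0
    have hc : ∀ i : Fin m, ww k m a b i * c i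
        = if hi : m < (i : ℕ) * a % m + (i : ℕ) * b % m then f ⟨i, hi⟩ • RatFunc.X⁻¹ else 0 := by
      intro i
      show ww k m a b i * (if hi : m < (i : ℕ) * a % m + (i : ℕ) * b % m then
        (ww k m a b i)⁻¹ * (f ⟨i, hi⟩ • RatFunc.X⁻¹) else 0) = _
      split_ifs with hi
      · rw [← mul_assoc, mul_inv_cancel₀ (ww_ne_zero _ _ _ _), one_mul]
      · rw [mul_zero]
    have hz : (∑ i : Fin m, ι (c i) * y ^ (i : ℕ)) ∈ B01 := by
      rw [m01, hco']
      intro i
      rw [hc]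
      split_ifs with hi
      · exact Subalgebra.smul_mem _ (Algebra.subset_adjoin (by simp)) _
      · exact zero_mem _
    refine ⟨⟨_, hz⟩, ?_⟩
    funext j
    show Λ (∑ i : Fin m, ι (c i) * y ^ (i : ℕ)) j = f j
    rw [hΛ, hco', hc, dif_pos j.2, map_smul]
    have := hcf (-1) (-1)
    rw [if_pos rfl, zpow_neg_one] at this
    rw [this, smul_eq_mul, mul_one]
  -- the kernel
  have hker : LinearMap.ker Λ' = (Subalgebra.toSubmodule B0 ⊔ Subalgebra.toSubmodule B1).comap
      B01.val.toLinearMap := by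
    ext ⟨z, hz⟩
    rw [LinearMap.mem_ker, Submodule.mem_comap]
    show Λ z = 0 ↔ z ∈ Subalgebra.toSubmodule B0 ⊔ Subalgebra.toSubmodule B1
    rw [Submodule.mem_sup]
    constructor
    · intro h0
      have h1 : ∀ i : Fin m, ∃ p q : RatFunc k, p ∈ Algebra.adjoin k {(RatFunc.X : RatFunc k)} ∧
          RatFunc.X ^ kap m a b i * q ∈ Algebra.adjoin k {(RatFunc.X⁻¹ : RatFunc k)} ∧
          ww k m a b i * co z i = p + q := by
        intro i
        refine split_kap hcf ((m01 z).1 hz i) _ ?_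
        by_cases hi : m < (i : ℕ) * a % m + (i : ℕ) * b % m
        · left
          exact ⟨kap_two hm hi, congrFun h0 ⟨i, hi⟩⟩
        · right
          exact kap_le_one hm hi
      choose p q hp hq hpq using h1
      refine ⟨∑ i : Fin m, ι ((ww k m a b i)⁻¹ * p i) * y ^ (i : ℕ), ?_,
        ∑ i : Fin m, ι ((ww k m a b i)⁻¹ * q i) * y ^ (i : ℕ), ?_, ?_⟩
      · show _ ∈ B0
        rw [m0, hco']
        intro i
        rw [← mul_assoc, mul_inv_cancel₀ (ww_ne_zero _ _ _ _), one_mul]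
        exact hp i
      · show _ ∈ B1
        rw [m1, hco']
        intro i
        rw [← mul_assoc (ww k m a b i), mul_inv_cancel₀ (ww_ne_zero _ _ _ _), one_mul]
        exact hq i
      · conv_rhs => rw [hco z]
        rw [← Finset.sum_add_distrib]
        refine Finset.sum_congr rfl fun i _ => ?_
        rw [← add_mul, ← map_add, ← mul_add, ← hpq i, ← mul_assoc,
          inv_mul_cancel₀ (ww_ne_zero _ _ _ _), one_mul]
    · rintro ⟨u, hu, v, hv, rfl⟩
      rw [map_add]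
      have hu0 : Λ u = 0 := by
        funext j
        rw [hΛ]
        exact cf_X hcf ((m0 u).1 hu j.1)
      have hv0 : Λ v = 0 := by
        funext j
        rw [hΛ]
        have := (m1 v).1 hv j.1
        rw [kap_two hm j.2] at this
        exact cf_inv hcf this
      rw [hu0, hv0, add_zero]
  -- conclusion
  show Module.rank k (↥B01 ⧸ ((Subalgebra.toSubmodule B0 ⊔ Subalgebra.toSubmodule B1).comap
      B01.val.toLinearMap)) = _
  rw [← hker, (Λ'.quotKerEquivOfSurjective hsurj).rank_eq, rank_fun', card_JJ]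

end Kum

end Pool.Agent.Lib.MP_ba0fa5_ag.H1
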