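import Pool.Agent.Lib.MP_ba0fa5_ag.H1.Kum

/-!
GINT: the integral closures of `k[x]`, `k[1/x]`, `k[x, 1/x]` in a Kummer extension.
-/

namespace Pool.Agent.Lib.MP_ba0fa5_ag.H1

open Polynomial
open scoped Classical

/-- change of the base ring for integrality -/
theorem integral_lift {R L A : Type*} [CommRing R] [CommRing L] [CommRing A] (φ : R →+* L)
    (ψ : A →+* L) (hA : ∀ a, ψ a ∈ φ.range) {z : L} (hz : ψ.IsIntegralElem z) :
    φ.IsIntegralElem z := by
  obtain ⟨p, hp, h0⟩ := hz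
  have h1 : p.map ψ ∈ lifts φ := by
    rw [lifts_iff_coeff_lifts]
    intro n
    rw [coeff_map]
    exact hA _
  obtain ⟨q, hq, -, hm⟩ := lifts_and_natDegree_eq_and_monic h1 (hp.map ψ)
  refine ⟨q, hm, ?_⟩
  rw [← eval_map, hq, eval_map, h0]

section RF

variable {k : Type} [Field k]

theorem aeval_RX (p : k[X]) : aeval (RatFunc.X : RatFunc k) p = algebraMap k[X] (RatFunc k) p := by
  have : (aeval (RatFunc.X : RatFunc k) : k[X] →ₐ[k] RatFunc k)
      = (Algebra.ofId k[X] (RatFunc k)).restrictScalars k := by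
    apply Polynomial.algHom_ext
    rw [aeval_X]
    exact RatFunc.algebraMap_X.symm
  rw [this]
  rfl

theorem mem_adjoin_X (z : RatFunc k) :
    z ∈ Algebra.adjoin k {(RatFunc.X : RatFunc k)} ↔ ∃ p : k[X], algebraMap k[X] (RatFunc k) p = z := by
  rw [Algebra.adjoin_singleton_eq_range_aeval]
  constructor
  · rintro ⟨p, hp⟩
    exact ⟨p, by rw [← hp, ← aeval_RX]; rfl⟩
  · rintro ⟨p, hp⟩
    exact ⟨p, by rw [← hp, ← aeval_RX]; rfl⟩

theorem int_X {z : RatFunc k} (hz : IsIntegral (Algebra.adjoin k {(RatFunc.X : RatFunc k)}) z) :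
    z ∈ Algebra.adjoin k {(RatFunc.X : RatFunc k)} := by
  have h1 : (algebraMap k[X] (RatFunc k)).IsIntegralElem z := by
    refine integral_lift _ (algebraMap (Algebra.adjoin k {(RatFunc.X : RatFunc k)}) (RatFunc k))
      ?_ hz
    rintro ⟨a, ha⟩
    obtain ⟨p, hp⟩ := (mem_adjoin_X a).1 ha
    exact ⟨p, hp⟩
  rw [mem_adjoin_X]
  exact IsIntegrallyClosed.isIntegral_iff.1 h1

/-- every Laurent polynomial has a power of `X` as a denominator -/
theorem exists_pow_mul_mem {z : RatFunc k}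
    (hz : z ∈ Algebra.adjoin k {(RatFunc.X : RatFunc k), RatFunc.X⁻¹}) :
    ∃ N : ℕ, ∀ n : ℕ, N ≤ n → z * RatFunc.X ^ n ∈ Algebra.adjoin k {(RatFunc.X : RatFunc k)} := by
  have hX : (RatFunc.X : RatFunc k) ∈ Algebra.adjoin k {(RatFunc.X : RatFunc k)} :=
    Algebra.subset_adjoin rfl
  induction hz using Algebra.adjoin_induction with
  | mem x hx =>
    rcases hx with rfl | hx
    · exact ⟨0, fun n _ => mul_mem hX (pow_mem hX n)⟩
    · refine ⟨1, fun n hn => ?_⟩
      have hx' : x = RatFunc.X⁻¹ := hx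
      obtain ⟨n', rfl⟩ : ∃ n', n = n' + 1 := ⟨n - 1, by omega⟩
      have : x * RatFunc.X ^ (n' + 1) = (RatFunc.X : RatFunc k) ^ n' := by
        rw [hx', pow_succ]
        field_simp [RatFunc.X_ne_zero]
      rw [this]
      exact pow_mem hX _
  | algebraMap r =>
    exact ⟨0, fun n _ => mul_mem (Subalgebra.algebraMap_mem _ r) (pow_mem hX n)⟩
  | add x y _ _ h1 h2 =>
    obtain ⟨N1, h1⟩ := h1
    obtain ⟨N2, h2⟩ := h2
    refine ⟨max N1 N2, fun n hn => ?_⟩
    rw [add_mul]
    exact add_mem (h1 n (le_trans (le_max_left _ _) hn)) (h2 n (le_trans (le_max_right _ _) hn))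
  | mul x y _ _ h1 h2 =>
    obtain ⟨N1, h1⟩ := h1
    obtain ⟨N2, h2⟩ := h2
    refine ⟨N1 + N2, fun n hn => ?_⟩
    have : x * y * RatFunc.X ^ n = (x * RatFunc.X ^ N1) * (y * RatFunc.X ^ (n - N1)) := by
      have : (RatFunc.X : RatFunc k) ^ n = RatFunc.X ^ N1 * RatFunc.X ^ (n - N1) := by
        rw [← pow_add]; congr 1; omega
      rw [this]; ring
    rw [this]
    exact mul_mem (h1 N1 le_rfl) (h2 (n - N1) (by omega))

theorem adjoin_X_le :
    Algebra.adjoin k {(RatFunc.X : RatFunc k)} ≤ Algebra.adjoin k {(RatFunc.X : RatFunc k), RatFunc.X⁻¹} :=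
  Algebra.adjoin_mono (by simp)

theorem int_XX {z : RatFunc k}
    (hz : IsIntegral (Algebra.adjoin k {(RatFunc.X : RatFunc k), RatFunc.X⁻¹}) z) :
    z ∈ Algebra.adjoin k {(RatFunc.X : RatFunc k), RatFunc.X⁻¹} := by
  set A := Algebra.adjoin k {(RatFunc.X : RatFunc k)} with hA
  set B := Algebra.adjoin k {(RatFunc.X : RatFunc k), RatFunc.X⁻¹} with hB
  obtain ⟨p, hp, h0⟩ := hz
  -- a common denominator
  have hN : ∃ N : ℕ, ∀ i, ∀ n : ℕ, N ≤ n → ((p.coeff i : B) : RatFunc k) * RatFunc.X ^ n ∈ A := by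
    have h1 : ∀ i, ∃ N : ℕ, ∀ n : ℕ, N ≤ n → ((p.coeff i : B) : RatFunc k) * RatFunc.X ^ n ∈ A :=
      fun i => exists_pow_mul_mem (p.coeff i).2
    choose N hN using h1
    refine ⟨(Finset.range (p.natDegree + 1)).sup N, fun i n hn => ?_⟩
    by_cases hi : i ≤ p.natDegree
    · exact hN i n (le_trans (Finset.le_sup (f := N) (Finset.mem_range.2 (by omega))) hn)
    · rw [coeff_eq_zero_of_natDegree_lt (by omega)]
      simp
  obtain ⟨N, hN⟩ := hN
  have hXA : (RatFunc.X : RatFunc k) ∈ A := Algebra.subset_adjoin rfl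
  have hXB : (RatFunc.X : RatFunc k) ∈ B := Algebra.subset_adjoin (by simp)
  have hXB' : (RatFunc.X⁻¹ : RatFunc k) ∈ B := Algebra.subset_adjoin (by simp)
  set s : B := ⟨RatFunc.X ^ N, pow_mem hXB N⟩ with hs
  have h2 : eval₂ (algebraMap B (RatFunc k)) (algebraMap B (RatFunc k) s * z) (p.scaleRoots s) = 0 :=
    scaleRoots_eval₂_eq_zero _ h0
  have h3 : (p.scaleRoots s).Monic := (monic_scaleRoots_iff s).2 hp
  have h4 : (algebraMap A (RatFunc k)).IsIntegralElem (algebraMap B (RatFunc k) s * z) := by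
    have h5 : (p.scaleRoots s).map (algebraMap B (RatFunc k)) ∈ lifts (algebraMap A (RatFunc k)) := by
      rw [lifts_iff_coeff_lifts]
      intro i
      rw [coeff_map]
      by_cases hi : i < p.natDegree
      · have e1 : algebraMap B (RatFunc k) ((p.scaleRoots s).coeff i)
            = ((p.coeff i : B) : RatFunc k) * RatFunc.X ^ (N * (p.natDegree - i)) := by
          rw [coeff_scaleRoots, map_mul, map_pow, pow_mul]
          rfl
        refine ⟨⟨_, hN i (N * (p.natDegree - i)) (Nat.le_mul_of_pos_right _ (by omega))⟩, ?_⟩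
        rw [e1]
        rfl
      · rcases Nat.eq_or_lt_of_not_lt hi with hi | hi
        · have e1 : (p.scaleRoots s).coeff i = 1 := by
            rw [hi] at *
            rw [coeff_scaleRoots, Nat.sub_self, pow_zero, mul_one]
            exact hp
          exact ⟨1, by rw [e1, map_one, map_one]⟩
        · refine ⟨0, ?_⟩
          rw [coeff_scaleRoots, coeff_eq_zero_of_natDegree_lt hi, zero_mul, map_zero, map_zero]
    obtain ⟨q, hq, -, hm⟩ := lifts_and_natDegree_eq_and_monic h5 (h3.map _)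
    refine ⟨q, hm, ?_⟩
    rw [← eval_map, hq, eval_map, h2]
  have h6 : algebraMap B (RatFunc k) s * z ∈ A := int_X h4
  have h7 : z = (RatFunc.X⁻¹) ^ N * (algebraMap B (RatFunc k) s * z) := by
    have : algebraMap B (RatFunc k) s = RatFunc.X ^ N := rfl
    rw [this, ← mul_assoc, ← mul_pow, inv_mul_cancel₀ RatFunc.X_ne_zero, one_pow, one_mul]
  rw [h7]
  exact mul_mem (pow_mem hXB' N) (adjoin_X_le h6)

/-- the automorphism `X ↦ 1/X` -/
theorem exists_inv_aut : ∃ τ : RatFunc k →ₐ[k] RatFunc k, τ RatFunc.X = RatFunc.X⁻¹ := by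
  have htr : Transcendental k (RatFunc.X⁻¹ : RatFunc k) := by
    intro h
    have h1 : IsAlgebraic k (RatFunc.X : RatFunc k) := by
      have := h.inv
      rwa [inv_inv] at this
    exact RatFunc.transcendental_X (K := k) h1
  have hinj : Function.Injective (aeval (RatFunc.X⁻¹ : RatFunc k) : k[X] →ₐ[k] RatFunc k) :=
    transcendental_iff_injective.1 htr
  have hle : nonZeroDivisors k[X] ≤ Submonoid.comap (aeval (RatFunc.X⁻¹ : RatFunc k) : k[X] →ₐ[k] RatFunc k)
      (nonZeroDivisors (RatFunc k)) :=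
    nonZeroDivisors_le_comap_nonZeroDivisors_of_injective _ hinj
  refine ⟨RatFunc.liftAlgHom (aeval (RatFunc.X⁻¹ : RatFunc k)) hle, ?_⟩
  have h1 := RatFunc.liftAlgHom_apply_div (aeval (RatFunc.X⁻¹ : RatFunc k)) hle X 1
  rw [map_one, map_one, div_one, div_one, RatFunc.algebraMap_X, aeval_X] at h1
  exact h1

theorem ratHom_ext {L : Type*} [Field L] [Algebra k L] (f g : RatFunc k →ₐ[k] L)
    (h : f RatFunc.X = g RatFunc.X) (z : RatFunc k) : f z = g z := by
  have h1 : (f : RatFunc k →+* L) = (g : RatFunc k →+* L) := by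
    apply IsLocalization.ringHom_ext (nonZeroDivisors k[X])
    apply Polynomial.ringHom_ext
    · intro r
      have : algebraMap k[X] (RatFunc k) (C r) = algebraMap k (RatFunc k) r := by
        rw [RatFunc.algebraMap_C, RatFunc.algebraMap_eq_C]
      rw [RingHom.comp_apply, RingHom.comp_apply, this]
      exact (f.commutes r).trans (g.commutes r).symm
    · rw [RingHom.comp_apply, RingHom.comp_apply, RatFunc.algebraMap_X]
      exact h
  exact congrArg (fun F : RatFunc k →+* L => F z) h1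

theorem int_map {L L' : Type*} [Field L] [Field L'] [Algebra k L] [Algebra k L'] (f : L →ₐ[k] L')
    (s : Set L) (z : L) :
    IsIntegral (Algebra.adjoin k (f '' s)) (f z) ↔ IsIntegral (Algebra.adjoin k s) z := by
  constructor
  · intro h
    have h1 : ((f : L →+* L').comp (algebraMap (Algebra.adjoin k s) L)).IsIntegralElem (f z) := by
      refine integral_lift _ (algebraMap (Algebra.adjoin k (f '' s)) L') ?_ h
      rintro ⟨a, ha⟩
      rw [← AlgHom.map_adjoin] at ha
      obtain ⟨b, hb, rfl⟩ := ha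
      exact ⟨⟨b, hb⟩, rfl⟩
    obtain ⟨p, hp, h0⟩ := h1
    refine ⟨p, hp, ?_⟩
    apply (f : L →+* L').injective
    rw [map_zero, hom_eval₂]
    exact h0
  · intro h
    obtain ⟨p, hp, h0⟩ := h
    have h1 : ((f : L →+* L').comp (algebraMap (Algebra.adjoin k s) L)).IsIntegralElem (f z) :=
      ⟨p, hp, by
        have := hom_eval₂ p (algebraMap (Algebra.adjoin k s) L) (f : L →+* L') z
        rw [h0, map_zero] at this
        exact this.symm⟩
    refine integral_lift _ _ ?_ h1
    rintro ⟨a, ha⟩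
    refine ⟨⟨f a, ?_⟩, rfl⟩
    rw [← AlgHom.map_adjoin]
    exact ⟨a, ha, rfl⟩

theorem int_inv {s : Set (RatFunc k)} (hs : s = {RatFunc.X⁻¹}) {z : RatFunc k}
    (hz : IsIntegral (Algebra.adjoin k s) z) : z ∈ Algebra.adjoin k s := by
  obtain ⟨τ, hτ⟩ := exists_inv_aut (k := k)
  have h1 : ∀ w, τ (τ w) = w := by
    intro w
    exact ratHom_ext (τ.comp τ) (AlgHom.id k _) (by
      rw [AlgHom.comp_apply, hτ, map_inv₀, hτ, inv_inv]; rfl) w
  have h2 : s = τ '' {RatFunc.X} := by
    rw [Set.image_singleton, hτ, hs]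
  subst h2
  rw [← h1 z, int_map] at hz
  rw [← AlgHom.map_adjoin]
  exact ⟨τ z, int_X hz, h1 z⟩

theorem int_s {s : Set (RatFunc k)}
    (hs : s = {RatFunc.X} ∨ s = {RatFunc.X⁻¹} ∨ s = {RatFunc.X, RatFunc.X⁻¹})
    {z : RatFunc k} (hz : IsIntegral (Algebra.adjoin k s) z) : z ∈ Algebra.adjoin k s := by
  rcases hs with rfl | hs | rfl
  · exact int_X hz
  · exact int_inv hs hz
  · exact int_XX hz

end RF

theorem algMap_int {k L : Type*} [Field k] [Field L] [Algebra k L] (A : Subalgebra k L) (r : k) :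
    IsIntegral A (algebraMap k L r) := by
  have : algebraMap k L r = algebraMap A L (algebraMap k A r) := rfl
  rw [this]
  exact isIntegral_algebraMap

/-- **GINT** -/
theorem gint : GintStmt := by
  intro k K _ _ _ m a b ι y h hm hζ s hs c
  obtain ⟨ζ, hζ⟩ := hζ
  have key : ∀ i : Fin m, (ι (c i) * y ^ (i : ℕ)) ^ m
      = ι (c i ^ m * (RatFunc.X ^ a * (1 - RatFunc.X) ^ b) ^ (i : ℕ)) := by
    intro i
    rw [mul_pow, ← pow_mul, mul_comm (i : ℕ) m, pow_mul, h.eq]
    simp only [map_mul, map_pow]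
  rw [mem_intCl]
  constructor
  · intro hz i
    obtain ⟨σ, h1, h2⟩ := exists_avg h hζ
    have h3 : IsIntegral (Algebra.adjoin k (ι '' s)) (ι (c i) * y ^ (i : ℕ)) := by
      rw [h2 c i]
      refine IsIntegral.sum _ fun j _ => ?_
      refine IsIntegral.mul (algMap_int _ _) ?_
      -- the image of an integral element under `σ j`
      have h4 : ∀ w ∈ Algebra.adjoin k (ι '' s), σ j w = w := by
        intro w hw
        rw [← AlgHom.map_adjoin] at hw
        obtain ⟨v, -, rfl⟩ := hw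
        exact h1 j v
      obtain ⟨p, hp, h0⟩ := hz
      refine ⟨p, hp, ?_⟩
      have h5 : (σ j).comp (algebraMap (Algebra.adjoin k (ι '' s)) K)
          = algebraMap (Algebra.adjoin k (ι '' s)) K := by
        ext w
        exact h4 w w.2
      have h6 := hom_eval₂ p (algebraMap (Algebra.adjoin k (ι '' s)) K) (σ j)
        (∑ i, ι (c i) * y ^ (i : ℕ))
      rw [h0, map_zero, h5] at h6
      exact h6.symm
    have h7 := h3.pow m
    rw [key i, int_map] at h7
    exact int_s hs h7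
  · intro hc
    refine IsIntegral.sum _ fun i _ => ?_
    refine IsIntegral.of_pow hm ?_
    rw [key i, int_map]
    exact isIntegral_algebraMap (x := (⟨_, hc i⟩ : Algebra.adjoin k s))

end Pool.Agent.Lib.MP_ba0fa5_ag.H1
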