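import Pool.Agent.Lib.MP_ba0fa5_ag.Iface

/-!
API for Kummer data: basis, power basis, minimal polynomial, the automorphisms `y ↦ ζ y`.
-/

namespace Pool.Agent.Lib.MP_ba0fa5_ag.H1

open Polynomial
open scoped Classical

variable {k K : Type} [Field k] [Field K] [Algebra k K] {m a b : ℕ}
  {ι : RatFunc k →ₐ[k] K} {y : K}

/-- the function `x ^ a (1 - x) ^ b` -/
noncomputable def ff (k : Type) [Field k] (a b : ℕ) : RatFunc k :=
  RatFunc.X ^ a * (1 - RatFunc.X) ^ b

theorem ff_ne_zero (a b : ℕ) : ff k a b ≠ 0 := by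
  unfold ff
  have h1 : (RatFunc.X : RatFunc k) ≠ 0 := RatFunc.X_ne_zero
  have h2 : (1 - RatFunc.X : RatFunc k) ≠ 0 := by
    intro h
    have : (1 : RatFunc k) = RatFunc.X := sub_eq_zero.1 h
    have h3 := congrArg RatFunc.num this
    rw [RatFunc.num_one, RatFunc.num_X] at h3
    have := congrArg Polynomial.natDegree h3
    simp at this
  exact mul_ne_zero (pow_ne_zero _ h1) (pow_ne_zero _ h2)

theorem kum_pos (h : Kummer k K m a b ι y) : 0 < m := by
  rcases Nat.eq_zero_or_pos m with h0 | h0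
  · subst h0
    obtain ⟨c, hc, -⟩ := h.basis 1
    simp at hc
  · exact h0

/-- linear independence in the form: a combination which vanishes has zero coefficients -/
theorem kum_indep (h : Kummer k K m a b ι y) (c : Fin m → RatFunc k)
    (hc : ∑ i, ι (c i) * y ^ (i : ℕ) = 0) : c = 0 := by
  obtain ⟨d, hd, hu⟩ := h.basis 0
  have h1 := hu c hc.symm
  have h2 := hu 0 (by simp)
  rw [h1, h2]

theorem kum_inj (h : Kummer k K m a b ι y) (c d : Fin m → RatFunc k)
    (hc : ∑ i, ι (c i) * y ^ (i : ℕ) = ∑ i, ι (d i) * y ^ (i : ℕ)) : c = d := by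
  obtain ⟨e, he, hu⟩ := h.basis (∑ i, ι (d i) * y ^ (i : ℕ))
  rw [hu c hc.symm, hu d rfl]

theorem y_pow (h : Kummer k K m a b ι y) : y ^ m = ι (ff k a b) := h.eq

theorem y_ne_zero (h : Kummer k K m a b ι y) : y ≠ 0 := by
  intro h0
  have h1 := y_pow h
  rw [h0, zero_pow (kum_pos h).ne'] at h1
  have h2 : ι (ff k a b) = ι 0 := by rw [map_zero, ← h1]
  exact ff_ne_zero a b (ι.toRingHom.injective h2)

section Alg

/-- the algebra structure over `k(x)` -/
@[reducible] noncomputable def algR (ι : RatFunc k →ₐ[k] K) : Algebra (RatFunc k) K :=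
  ι.toRingHom.toAlgebra

theorem algR_smul (ι : RatFunc k →ₐ[k] K) (r : RatFunc k) (z : K) :
    letI := algR ι
    r • z = ι r * z := rfl

/-- the basis `1, y, …, y ^ (m - 1)` -/
noncomputable def kbasis (h : Kummer k K m a b ι y) :
    letI := algR ι
    Module.Basis (Fin m) (RatFunc k) K := by
  letI := algR ι
  refine Module.Basis.mk (v := fun i : Fin m => y ^ (i : ℕ)) ?_ ?_
  · rw [Fintype.linearIndependent_iff]
    intro g hg i
    have := kum_indep h g hg
    rw [this]; rfl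
  · intro z _
    obtain ⟨c, hc, -⟩ := h.basis z
    rw [hc]
    refine Submodule.sum_mem _ fun i _ => ?_
    have : ι (c i) * y ^ (i : ℕ) = c i • (y ^ (i : ℕ)) := rfl
    rw [this]
    exact Submodule.smul_mem _ _ (Submodule.subset_span ⟨i, rfl⟩)

theorem kbasis_apply (h : Kummer k K m a b ι y) (i : Fin m) :
    letI := algR ι
    kbasis h i = y ^ (i : ℕ) := by
  letI := algR ι
  unfold kbasis
  rw [Module.Basis.mk_apply]

/-- the power basis -/
noncomputable def kpb (h : Kummer k K m a b ι y) :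
    letI := algR ι
    PowerBasis (RatFunc k) K := by
  letI := algR ι
  exact { gen := y, dim := m, basis := kbasis h, basis_eq_pow := kbasis_apply h }

theorem minpoly_y (h : Kummer k K m a b ι y) :
    letI := algR ι
    minpoly (RatFunc k) y = X ^ m - C (ff k a b) := by
  letI := algR ι
  have hm := kum_pos h
  haveI : FiniteDimensional (RatFunc k) K := (kpb h).finite
  have hint : IsIntegral (RatFunc k) y := IsIntegral.of_finite _ _
  have h1 : (minpoly (RatFunc k) y).natDegree = m := (kpb h).natDegree_minpoly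
  have h2 : minpoly (RatFunc k) y ∣ X ^ m - C (ff k a b) := by
    apply minpoly.dvd
    rw [map_sub, map_pow, aeval_X, aeval_C]
    have : algebraMap (RatFunc k) K (ff k a b) = ι (ff k a b) := rfl
    rw [this, y_pow h, sub_self]
  exact (eq_of_monic_of_dvd_of_natDegree_le (minpoly.monic hint)
    (monic_X_pow_sub_C _ hm.ne') h2 (by rw [h1, natDegree_X_pow_sub_C])).symm

/-- the endomorphism `y ↦ ζ y` for `ζ ^ m = 1` -/
theorem exists_sigma (h : Kummer k K m a b ι y) (ζ : k) (hζ : ζ ^ m = 1) :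
    ∃ σ : K →+* K, (∀ r : RatFunc k, σ (ι r) = ι r) ∧ σ y = algebraMap k K ζ * y := by
  letI := algR ι
  have hroot : aeval (algebraMap k K ζ * y) (minpoly (RatFunc k) (kpb h).gen) = 0 := by
    have e : (kpb h).gen = y := rfl
    rw [e, minpoly_y h, map_sub, map_pow, aeval_X, aeval_C, mul_pow, ← map_pow, hζ, map_one,
      one_mul, y_pow h]
    exact sub_self _
  refine ⟨((kpb h).lift (algebraMap k K ζ * y) hroot).toRingHom, ?_, ?_⟩
  · intro r
    exact ((kpb h).lift (algebraMap k K ζ * y) hroot).commutes r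
  · exact (kpb h).lift_gen _ hroot

end Alg

/-- the endomorphism on a general element -/
theorem sigma_sum {σ : K →+* K} {ζ : k} (h1 : ∀ r : RatFunc k, σ (ι r) = ι r)
    (h2 : σ y = algebraMap k K ζ * y) (c : Fin m → RatFunc k) :
    σ (∑ i, ι (c i) * y ^ (i : ℕ)) = ∑ i : Fin m, algebraMap k K (ζ ^ (i : ℕ)) * (ι (c i) * y ^ (i : ℕ)) := by
  rw [map_sum]
  refine Finset.sum_congr rfl fun i _ => ?_
  rw [map_mul, map_pow, h1, h2, mul_pow, map_pow]
  ring

/-- averaging: projection onto the component `y ^ i` -/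
theorem exists_avg (h : Kummer k K m a b ι y) {ζ : k} (hζ : IsPrimitiveRoot ζ m) :
    ∃ σ : ℕ → K →+* K, (∀ j, ∀ r : RatFunc k, σ j (ι r) = ι r) ∧
      ∀ c : Fin m → RatFunc k, ∀ i : Fin m,
        ι (c i) * y ^ (i : ℕ) = ∑ j ∈ Finset.range m,
          algebraMap k K ((m : k)⁻¹ * (ζ ^ ((i : ℕ) * j))⁻¹) *
            σ j (∑ i, ι (c i) * y ^ (i : ℕ)) := by
  have hm := kum_pos h
  have hm0 : (m : k) ≠ 0 := by
    haveI : NeZero m := ⟨hm.ne'⟩
    exact (hζ.neZero' (R := k)).ne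
  have key : ∀ j : ℕ, ∃ σ : K →+* K, (∀ r : RatFunc k, σ (ι r) = ι r) ∧
      σ y = algebraMap k K (ζ ^ j) * y := fun j =>
    exists_sigma h (ζ ^ j) (by rw [← pow_mul, mul_comm, pow_mul, hζ.pow_eq_one, one_pow])
  choose σ h1 h2 using key
  refine ⟨σ, h1, ?_⟩
  intro c i
  have e1 : ∀ j ∈ Finset.range m, algebraMap k K ((m : k)⁻¹ * (ζ ^ ((i : ℕ) * j))⁻¹) *
      σ j (∑ i, ι (c i) * y ^ (i : ℕ)) = ∑ l : Fin m, algebraMap k K ((m : k)⁻¹ *
        ((ζ ^ ((i : ℕ) * j))⁻¹ * ζ ^ (j * (l : ℕ)))) * (ι (c l) * y ^ (l : ℕ)) := by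
    intro j _
    rw [sigma_sum (h1 j) (h2 j) c, Finset.mul_sum]
    refine Finset.sum_congr rfl fun l _ => ?_
    rw [← mul_assoc, ← map_mul, ← pow_mul, mul_assoc]
  rw [Finset.sum_congr rfl e1, Finset.sum_comm]
  have e2 : ∀ l : Fin m, ∑ j ∈ Finset.range m, algebraMap k K ((m : k)⁻¹ *
        ((ζ ^ ((i : ℕ) * j))⁻¹ * ζ ^ (j * (l : ℕ)))) * (ι (c l) * y ^ (l : ℕ))
      = if l = i then ι (c i) * y ^ (i : ℕ) else 0 := by
    intro l
    rw [← Finset.sum_mul, ← map_sum, ← Finset.mul_sum]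
    split_ifs with hl
    · subst hl
      have : ∑ j ∈ Finset.range m, (ζ ^ ((l : ℕ) * j))⁻¹ * ζ ^ (j * (l : ℕ)) = m := by
        rw [Finset.sum_congr rfl (g := fun _ => (1 : k))]
        · simp
        · intro j _
          rw [mul_comm j]
          exact inv_mul_cancel₀ (pow_ne_zero _ (hζ.ne_zero hm.ne'))
      rw [this, inv_mul_cancel₀ hm0, map_one, one_mul]
    · have hz : ζ ≠ 0 := hζ.ne_zero hm.ne'
      have hne : (ζ ^ (i : ℕ))⁻¹ * ζ ^ (l : ℕ) ≠ 1 := by
        intro h3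
        apply hl
        have h4 : ζ ^ (l : ℕ) = ζ ^ (i : ℕ) := by
          field_simp at h3
          exact h3
        exact Fin.ext (hζ.pow_inj l.2 i.2 h4)
      have hgeom : ∑ j ∈ Finset.range m, (ζ ^ ((i : ℕ) * j))⁻¹ * ζ ^ (j * (l : ℕ)) = 0 := by
        have e3 : ∀ j ∈ Finset.range m, (ζ ^ ((i : ℕ) * j))⁻¹ * ζ ^ (j * (l : ℕ))
            = ((ζ ^ (i : ℕ))⁻¹ * ζ ^ (l : ℕ)) ^ j := by
          intro j _
          rw [mul_pow, inv_pow, ← pow_mul, ← pow_mul, mul_comm j]
        rw [Finset.sum_congr rfl e3, geom_sum_eq hne]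
        have : ((ζ ^ (i : ℕ))⁻¹ * ζ ^ (l : ℕ)) ^ m = 1 := by
          rw [mul_pow, inv_pow, ← pow_mul, ← pow_mul, mul_comm (i : ℕ), mul_comm (l : ℕ), pow_mul,
            pow_mul, hζ.pow_eq_one, one_pow, one_pow, inv_one, one_mul]
        rw [this, sub_self, zero_div]
      rw [hgeom, mul_zero, map_zero, zero_mul]
  rw [Finset.sum_congr rfl fun l _ => e2 l]
  simp

end Pool.Agent.Lib.MP_ba0fa5_ag.H1
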