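import Pool.Agent.Lib.MP_ba0fa5_ag.H1.Gint

/-!
Explicit description of the integral closures of `k[x]`, `k[1/x]`, `k[x, 1/x]` in a Kummer
extension: with `w_i = x ^ (i a / m) (1 - x) ^ (i b / m)` the element `∑ c_i y ^ i` is in the
closure iff every `w_i c_i` is in `k[x]`, resp. `x ^ κ_i w_i c_i` in `k[1/x]`, resp. `w_i c_i`
in `k[x, 1/x]`, where `κ_i` is `((i a mod m) + (i b mod m)) / m` rounded up.
-/

namespace Pool.Agent.Lib.MP_ba0fa5_ag.H1

open Polynomial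
open scoped Classical

section RF

variable {k : Type} [Field k]

theorem one_sub_RX_ne_zero : (1 - RatFunc.X : RatFunc k) ≠ 0 := by
  intro h
  have : (1 : RatFunc k) = RatFunc.X := sub_eq_zero.1 h
  have h3 := congrArg RatFunc.num this
  rw [RatFunc.num_one, RatFunc.num_X] at h3
  have := congrArg Polynomial.natDegree h3
  simp at this

theorem prime_one_sub_X : Prime (1 - X : k[X]) := by
  have h : Prime (X - C 1 : k[X]) := prime_X_sub_C 1
  have : (1 - X : k[X]) = -(X - C 1) := by rw [map_one]; ring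
  rw [this]
  exact h.neg

/-- divisibility by a prime -/
theorem dvd_of_cancel {π Q P G : k[X]} (hπ : Prime π) {n m : ℕ} (hn : n < m)
    (h : P ^ m = π ^ (m - n) * Q * G) : π ∣ P := by
  apply hπ.dvd_of_dvd_pow (n := m)
  rw [h, mul_assoc]
  exact Dvd.dvd.mul_right (dvd_pow_self _ (by omega)) _

theorem key_X {m r s : ℕ} (hr : r < m) (hs : s < m) {H : RatFunc k}
    (h : H ^ m * (RatFunc.X ^ r * (1 - RatFunc.X) ^ s) ∈ Algebra.adjoin k {(RatFunc.X : RatFunc k)}) :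
    H ∈ Algebra.adjoin k {(RatFunc.X : RatFunc k)} := by
  set A := Algebra.adjoin k {(RatFunc.X : RatFunc k)} with hA
  have hXA : (RatFunc.X : RatFunc k) ∈ A := Algebra.subset_adjoin rfl
  have h1A : (1 - RatFunc.X : RatFunc k) ∈ A := sub_mem (one_mem _) hXA
  have h1 : (H * (RatFunc.X * (1 - RatFunc.X))) ^ m ∈ A := by
    have : (H * (RatFunc.X * (1 - RatFunc.X))) ^ m
        = (H ^ m * (RatFunc.X ^ r * (1 - RatFunc.X) ^ s)) *
          (RatFunc.X ^ (m - r) * (1 - RatFunc.X) ^ (m - s)) := by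
      rw [mul_pow, mul_pow]
      have e1 : (RatFunc.X : RatFunc k) ^ m = RatFunc.X ^ r * RatFunc.X ^ (m - r) := by
        rw [← pow_add]; congr 1; omega
      have e2 : (1 - RatFunc.X : RatFunc k) ^ m = (1 - RatFunc.X) ^ s * (1 - RatFunc.X) ^ (m - s) := by
        rw [← pow_add]; congr 1; omega
      rw [e1, e2]; ring
    rw [this]
    exact mul_mem h (mul_mem (pow_mem hXA _) (pow_mem h1A _))
  have h2 : H * (RatFunc.X * (1 - RatFunc.X)) ∈ A := by
    apply int_X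
    refine IsIntegral.of_pow (lt_of_le_of_lt (Nat.zero_le _) hr) ?_
    exact isIntegral_algebraMap (x := (⟨_, h1⟩ : A))
  obtain ⟨P, hP⟩ := (mem_adjoin_X _).1 h2
  obtain ⟨G, hG⟩ := (mem_adjoin_X _).1 h
  have hinj : Function.Injective (algebraMap k[X] (RatFunc k)) := IsFractionRing.injective _ _
  have hmX : algebraMap k[X] (RatFunc k) X = RatFunc.X := RatFunc.algebraMap_X
  have hm1 : algebraMap k[X] (RatFunc k) (1 - X) = 1 - RatFunc.X := by
    rw [map_sub, map_one, hmX]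
  have h3 : P ^ m = (X ^ (m - r) * (1 - X) ^ (m - s)) * G := by
    apply hinj
    rw [map_mul, map_mul, map_pow, map_pow, map_pow, hP, hG, hmX, hm1]
    rw [mul_pow, mul_pow]
    have e1 : (RatFunc.X : RatFunc k) ^ m = RatFunc.X ^ r * RatFunc.X ^ (m - r) := by
      rw [← pow_add]; congr 1; omega
    have e2 : (1 - RatFunc.X : RatFunc k) ^ m = (1 - RatFunc.X) ^ s * (1 - RatFunc.X) ^ (m - s) := by
      rw [← pow_add]; congr 1; omega
    rw [e1, e2]; ring
  have d1 : X ∣ P := dvd_of_cancel prime_X hr h3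
  have d2 : (1 - X) ∣ P := by
    refine dvd_of_cancel (Q := X ^ (m - r)) (G := G) prime_one_sub_X hs ?_
    rw [h3]; ring
  have hco : IsCoprime (X : k[X]) (1 - X) := ⟨1, 1, by ring⟩
  obtain ⟨Q, hQ⟩ := hco.mul_dvd d1 d2
  rw [mem_adjoin_X]
  refine ⟨Q, ?_⟩
  have hne : (RatFunc.X * (1 - RatFunc.X) : RatFunc k) ≠ 0 :=
    mul_ne_zero RatFunc.X_ne_zero one_sub_RX_ne_zero
  apply mul_right_cancel₀ hne
  rw [← hP, hQ, map_mul, map_mul, hmX, hm1]
  ring

theorem exists_inv_aut' : ∃ τ : RatFunc k →ₐ[k] RatFunc k, τ RatFunc.X = RatFunc.X⁻¹ ∧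
    ∀ w, τ (τ w) = w := by
  obtain ⟨τ, hτ⟩ := exists_inv_aut (k := k)
  refine ⟨τ, hτ, fun w => ?_⟩
  exact ratHom_ext (τ.comp τ) (AlgHom.id k _) (by
      rw [AlgHom.comp_apply, hτ, map_inv₀, hτ, inv_inv]; rfl) w

theorem mem_adjoin_inv {τ : RatFunc k →ₐ[k] RatFunc k} (h1 : τ RatFunc.X = RatFunc.X⁻¹)
    (h2 : ∀ w, τ (τ w) = w) (z : RatFunc k) :
    z ∈ Algebra.adjoin k {(RatFunc.X⁻¹ : RatFunc k)} ↔
      τ z ∈ Algebra.adjoin k {(RatFunc.X : RatFunc k)} := by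
  have h3 : Algebra.adjoin k {(RatFunc.X⁻¹ : RatFunc k)}
      = (Algebra.adjoin k {(RatFunc.X : RatFunc k)}).map τ := by
    rw [AlgHom.map_adjoin, Set.image_singleton, h1]
  rw [h3]
  constructor
  · rintro ⟨w, hw, rfl⟩
    have : τ ((τ : RatFunc k →+* RatFunc k) w) = w := h2 w
    rw [this]
    exact hw
  · intro h
    exact ⟨τ z, h, h2 z⟩

theorem key_inv {m r s : ℕ} (hr : r < m) (hs : s < m) {H : RatFunc k}
    (h : H ^ m * ((RatFunc.X⁻¹) ^ r * (1 - RatFunc.X⁻¹) ^ s) ∈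
      Algebra.adjoin k {(RatFunc.X⁻¹ : RatFunc k)}) :
    H ∈ Algebra.adjoin k {(RatFunc.X⁻¹ : RatFunc k)} := by
  obtain ⟨τ, h1, h2⟩ := exists_inv_aut' (k := k)
  rw [mem_adjoin_inv h1 h2] at h ⊢
  apply key_X hr hs
  have : τ RatFunc.X⁻¹ = RatFunc.X := by rw [map_inv₀, h1, inv_inv]
  simpa only [map_mul, map_pow, map_sub, map_one, this] using h

/-- the functions `w_i` -/
noncomputable def ww (k : Type) [Field k] (m a b i : ℕ) : RatFunc k :=
  RatFunc.X ^ (i * a / m) * (1 - RatFunc.X) ^ (i * b / m)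

theorem ww_ne_zero (m a b i : ℕ) : ww k m a b i ≠ 0 :=
  mul_ne_zero (pow_ne_zero _ RatFunc.X_ne_zero) (pow_ne_zero _ one_sub_RX_ne_zero)

/-- the exponent at infinity -/
def kap (m a b i : ℕ) : ℕ := (i * a % m + i * b % m + m - 1) / m

theorem kap_spec {m a b i : ℕ} (hm : 0 < m) :
    i * a % m + i * b % m ≤ m * kap m a b i ∧ m * kap m a b i < i * a % m + i * b % m + m := by
  unfold kap
  set t := i * a % m + i * b % m
  have h1 := Nat.div_add_mod (t + m - 1) m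
  have h2 := Nat.mod_lt (t + m - 1) hm
  constructor <;> omega

theorem kap_two {m a b i : ℕ} (hm : 0 < m) (h : m < i * a % m + i * b % m) : kap m a b i = 2 := by
  have h1 := kap_spec (a := a) (b := b) (i := i) hm
  have h2 := Nat.mod_lt (i * a) hm
  have h3 := Nat.mod_lt (i * b) hm
  have h4 : 1 < kap m a b i := by
    by_contra h5
    have : m * kap m a b i ≤ m * 1 := Nat.mul_le_mul_left _ (by omega)
    omega
  have h5 : kap m a b i < 3 := by
    by_contra h5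
    have : m * 3 ≤ m * kap m a b i := Nat.mul_le_mul_left _ (by omega)
    omega
  omega

theorem kap_le_one {m a b i : ℕ} (hm : 0 < m) (h : ¬ m < i * a % m + i * b % m) :
    kap m a b i ≤ 1 := by
  have h1 := kap_spec (a := a) (b := b) (i := i) hm
  by_contra h5
  have : m * 2 ≤ m * kap m a b i := Nat.mul_le_mul_left _ (by omega)
  omega

theorem ww_pow (m a b i : ℕ) : (ww k m a b i) ^ m * (RatFunc.X ^ (i * a % m) * (1 - RatFunc.X) ^ (i * b % m))
    = (RatFunc.X ^ a * (1 - RatFunc.X) ^ b : RatFunc k) ^ i := by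
  unfold ww
  rw [mul_pow, mul_pow, ← pow_mul, ← pow_mul, ← pow_mul, ← pow_mul]
  have e1 : (RatFunc.X : RatFunc k) ^ (a * i) = RatFunc.X ^ (i * a / m * m) * RatFunc.X ^ (i * a % m) := by
    rw [← pow_add]; congr 1; rw [mul_comm a i]; exact (Nat.div_add_mod' _ _).symm
  have e2 : (1 - RatFunc.X : RatFunc k) ^ (b * i)
      = (1 - RatFunc.X) ^ (i * b / m * m) * (1 - RatFunc.X) ^ (i * b % m) := by
    rw [← pow_add]; congr 1; rw [mul_comm b i]; exact (Nat.div_add_mod' _ _).symm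
  rw [e1, e2]; ring

/-- the component of the integral closure of `k[x]` -/
theorem comp_X {m a b i : ℕ} (hm : 0 < m) (c : RatFunc k) :
    c ^ m * (RatFunc.X ^ a * (1 - RatFunc.X) ^ b) ^ i ∈ Algebra.adjoin k {(RatFunc.X : RatFunc k)} ↔
      ww k m a b i * c ∈ Algebra.adjoin k {(RatFunc.X : RatFunc k)} := by
  have hXA : (RatFunc.X : RatFunc k) ∈ Algebra.adjoin k {(RatFunc.X : RatFunc k)} :=
    Algebra.subset_adjoin rfl
  have h1A : (1 - RatFunc.X : RatFunc k) ∈ Algebra.adjoin k {(RatFunc.X : RatFunc k)} :=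
    sub_mem (one_mem _) hXA
  have e : c ^ m * (RatFunc.X ^ a * (1 - RatFunc.X) ^ b) ^ i
      = (ww k m a b i * c) ^ m * (RatFunc.X ^ (i * a % m) * (1 - RatFunc.X) ^ (i * b % m)) := by
    rw [← ww_pow m a b i, mul_pow]; ring
  rw [e]
  constructor
  · exact key_X (Nat.mod_lt _ hm) (Nat.mod_lt _ hm)
  · intro h
    exact mul_mem (pow_mem h _) (mul_mem (pow_mem hXA _) (pow_mem h1A _))

/-- the component of the integral closure of `k[1/x]` -/
theorem comp_inv {m a b i : ℕ} (hm : 0 < m) (c : RatFunc k) :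
    c ^ m * (RatFunc.X ^ a * (1 - RatFunc.X) ^ b) ^ i ∈
        Algebra.adjoin k {(RatFunc.X⁻¹ : RatFunc k)} ↔
      RatFunc.X ^ kap m a b i * (ww k m a b i * c) ∈
        Algebra.adjoin k {(RatFunc.X⁻¹ : RatFunc k)} := by
  have hXA : (RatFunc.X⁻¹ : RatFunc k) ∈ Algebra.adjoin k {(RatFunc.X⁻¹ : RatFunc k)} :=
    Algebra.subset_adjoin rfl
  have h1A : (1 - RatFunc.X⁻¹ : RatFunc k) ∈ Algebra.adjoin k {(RatFunc.X⁻¹ : RatFunc k)} :=
    sub_mem (one_mem _) hXA
  obtain ⟨h1, h2⟩ := kap_spec (a := a) (b := b) (i := i) hm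
  set ra := i * a % m with hra
  set rb := i * b % m with hrb
  set κ := kap m a b i with hκ
  have hX0 : (RatFunc.X : RatFunc k) ≠ 0 := RatFunc.X_ne_zero
  have e : c ^ m * (RatFunc.X ^ a * (1 - RatFunc.X) ^ b) ^ i
      = (-1) ^ rb * ((RatFunc.X ^ κ * (ww k m a b i * c)) ^ m *
        ((RatFunc.X⁻¹) ^ (m * κ - ra - rb) * (1 - RatFunc.X⁻¹) ^ rb)) := by
    rw [← ww_pow m a b i, mul_pow, mul_pow]
    have e1 : (1 - RatFunc.X : RatFunc k) ^ rb = (-1) ^ rb * (RatFunc.X ^ rb * (1 - RatFunc.X⁻¹) ^ rb) := by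
      rw [← mul_pow, ← mul_pow]
      congr 1
      field_simp
      ring
    have e2 : (RatFunc.X ^ κ : RatFunc k) ^ m * (RatFunc.X⁻¹) ^ (m * κ - ra - rb)
        = RatFunc.X ^ ra * RatFunc.X ^ rb := by
      have : (RatFunc.X ^ κ : RatFunc k) ^ m = RatFunc.X ^ ra * RatFunc.X ^ rb *
          RatFunc.X ^ (m * κ - ra - rb) := by
        rw [← pow_mul, ← pow_add, ← pow_add]; congr 1; rw [mul_comm κ m]; omega
      rw [this, inv_pow]
      field_simp
    rw [← hra, ← hrb, e1]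
    linear_combination (-(-1) ^ rb * (ww k m a b i) ^ m * c ^ m * (1 - RatFunc.X⁻¹) ^ rb) * e2
  have hsgn : ∀ z : RatFunc k, (-1) ^ rb * z ∈ Algebra.adjoin k {(RatFunc.X⁻¹ : RatFunc k)} ↔
      z ∈ Algebra.adjoin k {(RatFunc.X⁻¹ : RatFunc k)} := by
    intro z
    rcases neg_one_pow_eq_or (RatFunc k) rb with h | h
    · rw [h, one_mul]
    · rw [h, neg_one_mul, neg_mem_iff]
  rw [e, hsgn]
  constructor
  · exact key_inv (by omega) (Nat.mod_lt _ hm)
  · intro h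
    exact mul_mem (pow_mem h _) (mul_mem (pow_mem hXA _) (pow_mem h1A _))

/-- Laurent polynomials -/
theorem mem_XX (z : RatFunc k) : z ∈ Algebra.adjoin k {(RatFunc.X : RatFunc k), RatFunc.X⁻¹} ↔
    ∃ N : ℕ, RatFunc.X ^ N * z ∈ Algebra.adjoin k {(RatFunc.X : RatFunc k)} := by
  constructor
  · intro h
    obtain ⟨N, hN⟩ := exists_pow_mul_mem h
    exact ⟨N, by rw [mul_comm]; exact hN N le_rfl⟩
  · rintro ⟨N, hN⟩
    have hXB' : (RatFunc.X⁻¹ : RatFunc k) ∈
        Algebra.adjoin k {(RatFunc.X : RatFunc k), RatFunc.X⁻¹} := Algebra.subset_adjoin (by simp)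
    have : z = (RatFunc.X⁻¹) ^ N * (RatFunc.X ^ N * z) := by
      rw [← mul_assoc, ← mul_pow, inv_mul_cancel₀ RatFunc.X_ne_zero, one_pow, one_mul]
    rw [this]
    exact mul_mem (pow_mem hXB' N) (adjoin_X_le hN)

/-- the component of the integral closure of `k[x, 1/x]` -/
theorem comp_XX {m a b i : ℕ} (hm : 0 < m) (c : RatFunc k) :
    c ^ m * (RatFunc.X ^ a * (1 - RatFunc.X) ^ b) ^ i ∈
        Algebra.adjoin k {(RatFunc.X : RatFunc k), RatFunc.X⁻¹} ↔
      ww k m a b i * c ∈ Algebra.adjoin k {(RatFunc.X : RatFunc k), RatFunc.X⁻¹} := by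
  have hXA : (RatFunc.X : RatFunc k) ∈ Algebra.adjoin k {(RatFunc.X : RatFunc k), RatFunc.X⁻¹} :=
    Algebra.subset_adjoin (by simp)
  have h1A : (1 - RatFunc.X : RatFunc k) ∈
      Algebra.adjoin k {(RatFunc.X : RatFunc k), RatFunc.X⁻¹} := sub_mem (one_mem _) hXA
  constructor
  · intro h
    obtain ⟨N, hN⟩ := exists_pow_mul_mem h
    have h1 := hN (N * m) (Nat.le_mul_of_pos_right _ hm)
    have h2 : (RatFunc.X ^ N * c) ^ m * (RatFunc.X ^ a * (1 - RatFunc.X) ^ b) ^ i ∈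
        Algebra.adjoin k {(RatFunc.X : RatFunc k)} := by
      have : (RatFunc.X ^ N * c) ^ m * (RatFunc.X ^ a * (1 - RatFunc.X) ^ b) ^ i
          = c ^ m * (RatFunc.X ^ a * (1 - RatFunc.X) ^ b) ^ i * RatFunc.X ^ (N * m) := by
        rw [mul_pow, pow_mul]; ring
      rw [this]; exact h1
    rw [comp_X hm] at h2
    rw [mem_XX]
    exact ⟨N, by rw [mul_left_comm]; exact h2⟩
  · intro h
    have e : c ^ m * (RatFunc.X ^ a * (1 - RatFunc.X) ^ b) ^ i
        = (ww k m a b i * c) ^ m * (RatFunc.X ^ (i * a % m) * (1 - RatFunc.X) ^ (i * b % m)) := by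
      rw [← ww_pow m a b i, mul_pow]; ring
    rw [e]
    exact mul_mem (pow_mem h _) (mul_mem (pow_mem hXA _) (pow_mem h1A _))

end RF

section Kum

variable {k K : Type} [Field k] [Field K] [Algebra k K] {m a b : ℕ}
  {ι : RatFunc k →ₐ[k] K} {y : K}

theorem mem0 (h : Kummer k K m a b ι y) (hζ : ∃ ζ : k, IsPrimitiveRoot ζ m)
    (c : Fin m → RatFunc k) : (∑ i, ι (c i) * y ^ (i : ℕ)) ∈ intCl k K {ι RatFunc.X} ↔
      ∀ i : Fin m, ww k m a b i * c i ∈ Algebra.adjoin k {(RatFunc.X : RatFunc k)} := by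
  have h1 := gint k K m a b ι y h (kum_pos h) hζ {RatFunc.X} (Or.inl rfl) c
  rw [Set.image_singleton] at h1
  rw [h1]
  exact forall_congr' fun i => comp_X (kum_pos h) (c i)

theorem mem1 (h : Kummer k K m a b ι y) (hζ : ∃ ζ : k, IsPrimitiveRoot ζ m)
    (c : Fin m → RatFunc k) : (∑ i, ι (c i) * y ^ (i : ℕ)) ∈ intCl k K {(ι RatFunc.X)⁻¹} ↔
      ∀ i : Fin m, RatFunc.X ^ kap m a b i * (ww k m a b i * c i) ∈
        Algebra.adjoin k {(RatFunc.X⁻¹ : RatFunc k)} := by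
  have h1 := gint k K m a b ι y h (kum_pos h) hζ {RatFunc.X⁻¹} (Or.inr (Or.inl rfl)) c
  rw [Set.image_singleton, map_inv₀] at h1
  rw [h1]
  exact forall_congr' fun i => comp_inv (kum_pos h) (c i)

theorem mem01 (h : Kummer k K m a b ι y) (hζ : ∃ ζ : k, IsPrimitiveRoot ζ m)
    (c : Fin m → RatFunc k) :
    (∑ i, ι (c i) * y ^ (i : ℕ)) ∈ intCl k K {ι RatFunc.X, (ι RatFunc.X)⁻¹} ↔
      ∀ i : Fin m, ww k m a b i * c i ∈
        Algebra.adjoin k {(RatFunc.X : RatFunc k), RatFunc.X⁻¹} := by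
  have h1 := gint k K m a b ι y h (kum_pos h) hζ {RatFunc.X, RatFunc.X⁻¹} (Or.inr (Or.inr rfl)) c
  rw [Set.image_pair, map_inv₀] at h1
  rw [h1]
  exact forall_congr' fun i => comp_XX (kum_pos h) (c i)

end Kum

end Pool.Agent.Lib.MP_ba0fa5_ag.H1
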